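import Pool.Agent.Helper53.PT.GoalsA
import Pool.Agent.Helper89.Pq.MOM

/-!
MP_705522_gt, project PT (helper53), packet TAIL: explicit decay of `f0`, `f1`, `f2` from the rotated integrals.
-/

set_option autoImplicit false

open MeasureTheory Set Filter Topology

noncomputable section

namespace Pool.Agent.Helper40.PT

open Pool.Agent.Helper28.NO (mu muZ ph)
open Pool.Agent.Helper7.Proj (Zd)
open Pool.Agent.Helper88.NO (int_muZ w0 Zd_pos)
open Pool.Agent.Helper53.PT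

/-- the weight -/
def wq (q : ℝ) (k : ℕ) (y : ℝ) : ℝ := y ^ (q - 2 + k) * Real.exp (-y ^ q)

theorem wq_meas (q : ℝ) (k : ℕ) : Measurable (wq q k) := by
  unfold wq
  exact (measurable_id.pow_const _).mul (measurable_id.pow_const _).neg.exp

theorem wq_int {q : ℝ} (hq : 2 < q) (k : ℕ) : IntegrableOn (wq q k) (Ioi 0) := by
  have hk : (0 : ℝ) ≤ k := Nat.cast_nonneg k
  exact integrableOn_rpow_mul_exp_neg_rpow (by linarith) (by linarith)

theorem wq_succ (q : ℝ) (k : ℕ) {y : ℝ} (hy : 0 < y) : wq q k y * y = wq q (k + 1) y := by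
  unfold wq
  have : q - 2 + ((k + 1 : ℕ) : ℝ) = q - 2 + k + 1 := by push_cast; ring
  rw [this, Real.rpow_add_one hy.ne']
  ring

theorem wq_nonneg (q : ℝ) (k : ℕ) {y : ℝ} (hy : 0 < y) : 0 ≤ wq q k y :=
  mul_nonneg (Real.rpow_nonneg hy.le _) (Real.exp_pos _).le

theorem Ik_def (q : ℝ) (k : ℕ) (t : ℝ) : Ik q k t =
    ∫ y in Ioi (0 : ℝ), ((wq q k y : ℝ) : ℂ) * Complex.exp (Complex.I * (t * y)) := rfl

theorem norm_osc (t y : ℝ) : ‖Complex.exp (Complex.I * (t * y))‖ = 1 := by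
  have : Complex.I * ((t : ℂ) * y) = ((t * y : ℝ) : ℂ) * Complex.I := by push_cast; ring
  rw [this, Complex.norm_exp_ofReal_mul_I]

theorem osc_meas (q : ℝ) (k : ℕ) (t : ℝ) : Measurable fun y : ℝ =>
    ((wq q k y : ℝ) : ℂ) * Complex.exp (Complex.I * (t * y)) := by
  have h1 : Continuous fun y : ℝ => Complex.exp (Complex.I * (t * y)) := by fun_prop
  exact (Complex.measurable_ofReal.comp (wq_meas q k)).mul h1.measurable

theorem Ik_int {q : ℝ} (hq : 2 < q) (k : ℕ) (t : ℝ) : IntegrableOn (fun y : ℝ =>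
    ((wq q k y : ℝ) : ℂ) * Complex.exp (Complex.I * (t * y))) (Ioi 0) := by
  refine Integrable.mono' (wq_int hq k) (osc_meas q k t).aestronglyMeasurable ?_
  refine (ae_restrict_iff' measurableSet_Ioi).2 (Eventually.of_forall fun y hy => ?_)
  rw [norm_mul, norm_osc, mul_one, Complex.norm_real, Real.norm_of_nonneg (wq_nonneg q k hy)]

theorem hasDerivAt_Ik {q : ℝ} (hq : 2 < q) (k : ℕ) (t : ℝ) :
    HasDerivAt (fun t : ℝ => Ik q k t) (Complex.I * Ik q (k + 1) t) t := by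
  have h := (hasDerivAt_integral_of_dominated_loc_of_deriv_le
    (μ := volume.restrict (Ioi (0 : ℝ))) (𝕜 := ℝ) (x₀ := t) (s := univ)
    (F := fun (t : ℝ) (y : ℝ) => ((wq q k y : ℝ) : ℂ) * Complex.exp (Complex.I * (t * y)))
    (F' := fun (t : ℝ) (y : ℝ) => Complex.I * (y * (((wq q k y : ℝ) : ℂ) *
      Complex.exp (Complex.I * (t * y)))))
    (bound := wq q (k + 1)) univ_mem
    (Eventually.of_forall fun t => (osc_meas q k t).aestronglyMeasurable) (Ik_int hq k t)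
    ((measurable_const.mul (Complex.measurable_ofReal.mul (osc_meas q k t))).aestronglyMeasurable)
    ?_ (wq_int hq (k + 1)) ?_).2
  · refine h.congr_deriv ?_
    rw [integral_const_mul, Ik_def]
    congr 1
    refine setIntegral_congr_fun measurableSet_Ioi fun y hy => ?_
    have h1 := wq_succ q k (y := y) hy
    rw [← h1]
    push_cast
    ring
  · refine (ae_restrict_iff' measurableSet_Ioi).2 (Eventually.of_forall fun y hy s _ => ?_)
    have hy' : (0 : ℝ) < y := hy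
    rw [norm_mul, norm_mul, norm_mul, norm_osc, Complex.norm_I, Complex.norm_real,
      Complex.norm_real, Real.norm_of_nonneg hy'.le, Real.norm_of_nonneg (wq_nonneg q k hy),
      ← wq_succ q k hy]
    linarith
  · refine Eventually.of_forall fun y s _ => ?_
    have h1 : HasDerivAt (fun s : ℝ => Complex.I * ((s : ℂ) * y)) (Complex.I * y) s := by
      have := ((Complex.ofRealCLM.hasDerivAt (x := s)).mul_const (y : ℂ)).const_mul Complex.I
      simpa using this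
    have h2 := (h1.cexp).const_mul (((wq q k y : ℝ) : ℂ))
    refine h2.congr_deriv ?_
    ring

/-- `Φ_k(t) = Re (i^k Ik q k t)/N` -/
def Ph (θ : ℝ) (k : ℕ) (t : ℝ) : ℝ := (Complex.I ^ k * Ik (1 / θ) k t).re / Nn θ

theorem hasDerivAt_Ph {θ : ℝ} (h0 : 0 < θ) (h1 : θ < 1 / 2) (k : ℕ) (t : ℝ) :
    HasDerivAt (Ph θ k) (Ph θ (k + 1) t) t := by
  have hq : 2 < 1 / θ := by rw [lt_div_iff₀ h0]; linarith
  have h2 := (hasDerivAt_Ik hq k t).const_mul (Complex.I ^ k)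
  have h3 := (Complex.reCLM.hasFDerivAt (x := Complex.I ^ k * Ik (1 / θ) k t)).comp_hasDerivAt t h2
  refine (h3.div_const (Nn θ)).congr_deriv ?_
  unfold Ph
  rw [pow_succ, mul_assoc]
  rfl

theorem Nn_eq {θ : ℝ} (h0 : 0 < θ) (h1 : θ < 1 / 2) : Nn θ = Zd (1 / θ) := by
  have := Pool.Agent.Helper89.Pq.Zd_gamma θ h0 h1
  unfold Nn
  rw [← this]
  field_simp

theorem Nn_pos {θ : ℝ} (h0 : 0 < θ) (h1 : θ < 1 / 2) : 0 < Nn θ :=
  mul_pos h0 (Real.Gamma_pos_of_pos (by linarith))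

theorem ph_eq {θ : ℝ} (h0 : 0 < θ) (h1 : θ < 1 / 2) (s : ℝ) :
    ph (mu (1 / θ)) s = Ph θ 0 (s * Real.Gamma (1 - θ)) := by
  have hq : 2 < 1 / θ := by rw [lt_div_iff₀ h0]; linarith
  have hG := Pool.Agent.Helper89.Pq.Zd_gamma θ h0 h1
  have hme : Measurable (fun z : ℝ => 1 / θ * Zd (1 / θ) * z) := by fun_prop
  unfold ph mu Ph
  rw [integral_map hme.aemeasurable (by fun_prop), int_muZ (1 / θ) hq, pow_zero, one_mul,
    Nn_eq h0 h1, Ik_def]
  have h2 : (∫ y in Ioi (0 : ℝ), ((wq (1 / θ) 0 y : ℝ) : ℂ) *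
      Complex.exp (Complex.I * (((s * Real.Gamma (1 - θ) : ℝ) : ℂ) * y))).re =
      ∫ y in Ioi (0 : ℝ), (((wq (1 / θ) 0 y : ℝ) : ℂ) *
      Complex.exp (Complex.I * (((s * Real.Gamma (1 - θ) : ℝ) : ℂ) * y))).re := by
    have := integral_re (Ik_int hq 0 (s * Real.Gamma (1 - θ)))
    exact this.symm
  rw [h2, ← integral_div]
  refine setIntegral_congr_fun measurableSet_Ioi fun y hy => ?_
  have h3 : Complex.I * (((s * Real.Gamma (1 - θ) : ℝ) : ℂ) * y) =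
      ((s * Real.Gamma (1 - θ) * y : ℝ) : ℂ) * Complex.I := by push_cast; ring
  rw [h3, Complex.re_ofReal_mul, Complex.exp_ofReal_mul_I_re, hG]
  have h4 : wq (1 / θ) 0 y = w0 (1 / θ) y := by
    unfold wq w0
    simp
  rw [h4, mul_assoc s]
  ring

theorem tk_sq {θ x : ℝ} (h0 : 0 < θ) (h1 : θ < 1 / 2) (hx : 0 < x) :
    tk θ x ^ 2 = x * Real.Gamma (1 - θ) / Real.Gamma (1 + θ) := by
  unfold tk
  have := Real.Gamma_pos_of_pos (show 0 < 1 - θ by linarith)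
  have := Real.Gamma_pos_of_pos (show 0 < 1 + θ by linarith)
  exact Real.sq_sqrt (by positivity)

theorem tk_pos {θ x : ℝ} (h0 : 0 < θ) (h1 : θ < 1 / 2) (hx : 0 < x) : 0 < tk θ x := by
  unfold tk
  have := Real.Gamma_pos_of_pos (show 0 < 1 - θ by linarith)
  have := Real.Gamma_pos_of_pos (show 0 < 1 + θ by linarith)
  exact Real.sqrt_pos.2 (by positivity)

theorem tk_arg {θ x : ℝ} (h0 : 0 < θ) (h1 : θ < 1 / 2) (hx : 0 < x) :
    √x / sg θ * Real.Gamma (1 - θ) = tk θ x := by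
  have ha := Real.Gamma_pos_of_pos (show 0 < 1 - θ by linarith)
  have hb := Real.Gamma_pos_of_pos (show 0 < 1 + θ by linarith)
  unfold tk sg
  rw [eq_comm, Real.sqrt_eq_iff_mul_self_eq (by positivity) (by positivity)]
  have h2 := Real.mul_self_sqrt hx.le
  have h3 := Real.mul_self_sqrt (mul_pos hb ha).le
  have h4 : √(Real.Gamma (1 + θ) * Real.Gamma (1 - θ)) ≠ 0 :=
    (Real.sqrt_pos.2 (mul_pos hb ha)).ne'
  have : √x / √(Real.Gamma (1 + θ) * Real.Gamma (1 - θ)) * Real.Gamma (1 - θ) *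
      (√x / √(Real.Gamma (1 + θ) * Real.Gamma (1 - θ)) * Real.Gamma (1 - θ)) =
      (√x * √x) * Real.Gamma (1 - θ) * Real.Gamma (1 - θ) /
      (√(Real.Gamma (1 + θ) * Real.Gamma (1 - θ)) * √(Real.Gamma (1 + θ) * Real.Gamma (1 - θ))) := by
    field_simp
  rw [this, h2, h3]
  field_simp

theorem hasDerivAt_tk {θ x : ℝ} (h0 : 0 < θ) (h1 : θ < 1 / 2) (hx : 0 < x) :
    HasDerivAt (tk θ) (tk θ x / (2 * x)) x := by
  have ha := Real.Gamma_pos_of_pos (show 0 < 1 - θ by linarith)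
  have hb := Real.Gamma_pos_of_pos (show 0 < 1 + θ by linarith)
  have h2 : HasDerivAt (fun x : ℝ => x * Real.Gamma (1 - θ) / Real.Gamma (1 + θ))
      (1 * Real.Gamma (1 - θ) / Real.Gamma (1 + θ)) x :=
    ((hasDerivAt_id x).mul_const _).div_const _
  have h3 := h2.sqrt (by positivity)
  refine h3.congr_deriv ?_
  have h4 := tk_sq h0 h1 hx
  have h5 := tk_pos h0 h1 hx
  change 1 * Real.Gamma (1 - θ) / Real.Gamma (1 + θ) / (2 * tk θ x) = _
  rw [div_eq_div_iff (by positivity) (by positivity)]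
  have : tk θ x * (2 * tk θ x) = 2 * tk θ x ^ 2 := by ring
  rw [this, h4]
  ring

/-- bound of type B -/
theorem Ph_AB (hR : GROT) {θ : ℝ} (h4 : 1 / 4 ≤ θ) (h1 : θ < 1 / 2) (k : ℕ) {t : ℝ} (ht : 0 < t) :
    |Ph θ k t| ≤ AB θ k t := by
  have h0 : 0 < θ := by linarith
  have hq : 2 < 1 / θ := by rw [lt_div_iff₀ h0]; linarith
  have hq4 : 1 / θ ≤ 4 := by rw [div_le_iff₀ h0]; linarith
  have hN := Nn_pos h0 h1
  have h2 := (hR (1 / θ) hq hq4 k t ht).1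
  have h3 : Real.pi / (2 * (1 / θ)) = Real.pi * θ / 2 := by field_simp
  rw [h3] at h2
  unfold Ph AB
  rw [abs_div, abs_of_pos hN]
  refine div_le_div_of_nonneg_right ?_ hN.le
  refine (Complex.abs_re_le_norm _).trans ?_
  rw [norm_mul, norm_pow, Complex.norm_I, one_pow, one_mul]
  exact h2

/-- bound of type A -/
theorem Ph_AA (hR : GROT) {θ : ℝ} (h4 : 1 / 4 ≤ θ) (h1 : θ < 1 / 2) (k : ℕ) {t : ℝ} (ht : 0 < t) :
    |Ph θ k t| ≤ AA θ k t := by
  have h0 : 0 < θ := by linarith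
  have hq : 2 < 1 / θ := by rw [lt_div_iff₀ h0]; linarith
  have hq4 : 1 / θ ≤ 4 := by rw [div_le_iff₀ h0]; linarith
  have hN := Nn_pos h0 h1
  have h2 := (hR (1 / θ) hq hq4 k t ht).2
  have h3 : Real.pi / (2 * (1 / θ)) = Real.pi * θ / 2 := by field_simp
  have h5 : 2 * (1 / θ) = 2 / θ := by ring
  rw [h3, h5] at h2
  obtain ⟨M, hM⟩ : ∃ M : ℝ, M = Real.Gamma (1 / θ - 1 + k) * t ^ (-(1 / θ - 1 + k)) := ⟨_, rfl⟩
  rw [← hM] at h2
  have hM0 : 0 ≤ M := by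
    have hk : (0 : ℝ) ≤ k := Nat.cast_nonneg k
    rw [hM]
    exact mul_nonneg (Real.Gamma_pos_of_pos (by linarith)).le (Real.rpow_nonneg ht.le _)
  set Z : ℂ := Complex.exp (Complex.I * (Real.pi * ((1 / θ : ℝ) - 1 + k) / 2)) with hZ
  have hIk : Complex.I ^ k = Complex.exp (Complex.I * (Real.pi * k / 2)) := by
    have : Complex.I = Complex.exp (Complex.I * (Real.pi / 2)) := by
      rw [mul_comm, Complex.exp_mul_I]
      simp
    conv_lhs => rw [this]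
    rw [← Complex.exp_nat_mul]
    congr 1
    ring
  have hmain : Complex.I ^ k * Z = (-1) ^ k *
      Complex.exp (((Real.pi * (1 / θ - 1) / 2 : ℝ) : ℂ) * Complex.I) := by
    have e1 : Z = Complex.I ^ k *
        Complex.exp (((Real.pi * (1 / θ - 1) / 2 : ℝ) : ℂ) * Complex.I) := by
      rw [hIk, ← Complex.exp_add, hZ]
      congr 1
      push_cast
      ring
    rw [e1, ← mul_assoc, ← mul_pow, Complex.I_mul_I]
  have hre : |(Complex.I ^ k * ((M : ℂ) * Z)).re| = |Real.cos (Real.pi * (1 / θ - 1) / 2)| * M := by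
    have e1 : Complex.I ^ k * ((M : ℂ) * Z) = (M : ℂ) * (Complex.I ^ k * Z) := by ring
    have e2 : ((-1 : ℂ) ^ k) = (((-1 : ℝ) ^ k : ℝ) : ℂ) := by push_cast; rfl
    rw [e1, hmain, Complex.re_ofReal_mul, e2, Complex.re_ofReal_mul, Complex.exp_ofReal_mul_I_re,
      abs_mul, abs_mul, abs_pow, abs_neg, abs_one, one_pow, one_mul, abs_of_nonneg hM0, mul_comm]
  have hsplit : Complex.I ^ k * Ik (1 / θ) k t =
      Complex.I ^ k * ((M : ℂ) * Z) + Complex.I ^ k * (Ik (1 / θ) k t - (M : ℂ) * Z) := by ring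
  unfold Ph AA
  rw [abs_div, abs_of_pos hN]
  refine div_le_div_of_nonneg_right ?_ hN.le
  rw [hsplit, Complex.add_re]
  refine (abs_add_le _ _).trans ?_
  rw [hre]
  refine add_le_add (le_of_eq ?_) ?_
  · rw [hM, ← mul_assoc]
  refine (Complex.abs_re_le_norm _).trans ?_
  rw [norm_mul, norm_pow, Complex.norm_I, one_pow, one_mul]
  exact h2

theorem main (hS : ∀ θ : ℝ, 0 < θ → θ < 1 / 2 → (∀ x, HasDerivAt (f0 θ) (-(f1 θ x) / 2) x) ∧
    (∀ x, HasDerivAt (f1 θ) (f2 θ x) x) ∧ (∀ x, 0 ≤ x → f0 θ x = ph (mu (1 / θ)) (√x / sg θ)))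
    {θ : ℝ} (h0 : 0 < θ) (h1 : θ < 1 / 2) {x : ℝ} (hx : 0 < x) :
    f0 θ x = Ph θ 0 (tk θ x) ∧ f1 θ x = -(Ph θ 1 (tk θ x) * tk θ x / x) ∧
    f2 θ x = -((Ph θ 2 (tk θ x) - Ph θ 1 (tk θ x) / tk θ x) * tk θ x ^ 2 / (2 * x ^ 2)) := by
  obtain ⟨hd0, hd1, hf⟩ := hS θ h0 h1
  have e0 : ∀ x, 0 < x → f0 θ x = Ph θ 0 (tk θ x) := by
    intro x hx
    rw [hf x hx.le, ph_eq h0 h1, tk_arg h0 h1 hx]
  have e1 : ∀ x, 0 < x → f1 θ x = -(Ph θ 1 (tk θ x) * tk θ x / x) := by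
    intro x hx
    have h2 : HasDerivAt (fun x => Ph θ 0 (tk θ x)) (Ph θ 1 (tk θ x) * (tk θ x / (2 * x))) x :=
      (hasDerivAt_Ph h0 h1 0 (tk θ x)).comp x (hasDerivAt_tk h0 h1 hx)
    have h3 : f0 θ =ᶠ[𝓝 x] fun x => Ph θ 0 (tk θ x) := by
      filter_upwards [Ioi_mem_nhds hx] with y hy
      exact e0 y hy
    have h4 := (h2.congr_of_eventuallyEq h3).unique (hd0 x)
    have h5 : f1 θ x = -2 * (Ph θ 1 (tk θ x) * (tk θ x / (2 * x))) := by rw [h4]; ring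
    rw [h5]
    field_simp
  refine ⟨e0 x hx, e1 x hx, ?_⟩
  have ht := tk_pos h0 h1 hx
  have hP : HasDerivAt (fun x => Ph θ 1 (tk θ x)) (Ph θ 2 (tk θ x) * (tk θ x / (2 * x))) x :=
    (hasDerivAt_Ph h0 h1 1 (tk θ x)).comp x (hasDerivAt_tk h0 h1 hx)
  have h2 := (((hP.mul (hasDerivAt_tk h0 h1 hx)).div (hasDerivAt_id x) hx.ne').neg)
  have h3 : f1 θ =ᶠ[𝓝 x] fun x => -(Ph θ 1 (tk θ x) * tk θ x / x) := by
    filter_upwards [Ioi_mem_nhds hx] with y hy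
    exact e1 y hy
  have h4 := (hd1 x).unique (h2.congr_of_eventuallyEq h3)
  rw [h4]
  simp only [Pi.mul_apply, id]
  field_simp
  ring

/-- PACKET TAIL. -/
theorem gTAIL : GTAIL := by
  intro hR hS θ h4 h1 x hx
  have h0 : 0 < θ := by linarith
  obtain ⟨e0, e1, e2⟩ := main hS h0 h1 hx
  have ht := tk_pos h0 h1 hx
  have hA := fun k => Ph_AA hR h4 h1 k ht
  have hB := fun k => Ph_AB hR h4 h1 k ht
  have b1 : |f1 θ x| = |Ph θ 1 (tk θ x)| * tk θ x / x := by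
    rw [e1, abs_neg, abs_div, abs_mul, abs_of_pos ht, abs_of_pos hx]
  have b2 : |f2 θ x| ≤ (|Ph θ 2 (tk θ x)| + |Ph θ 1 (tk θ x)| / tk θ x) * tk θ x ^ 2 /
      (2 * x ^ 2) := by
    rw [e2, abs_neg, abs_div, abs_mul, abs_of_nonneg (sq_nonneg (tk θ x)),
      abs_of_pos (show 0 < 2 * x ^ 2 by positivity)]
    have h5 := abs_sub (Ph θ 2 (tk θ x)) (Ph θ 1 (tk θ x) / tk θ x)
    rw [abs_div (Ph θ 1 (tk θ x)), abs_of_pos ht] at h5
    gcongr
  refine ⟨by rw [e0]; exact hA 0, by rw [e0]; exact hB 0, ?_, ?_, ?_, ?_⟩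
  · rw [b1]; gcongr; exact hA 1
  · rw [b1]; gcongr; exact hB 1
  · refine b2.trans ?_
    gcongr
    · exact hA 2
    · exact hA 1
  · refine b2.trans ?_
    gcongr
    · exact hB 2
    · exact hB 1

/-- Power decay from the bounds of `GTAIL`. -/
theorem gDec (hT : ∀ θ : ℝ, 1 / 4 ≤ θ → θ < 1 / 2 → ∀ x, 0 < x →
    |f0 θ x| ≤ AA θ 0 (tk θ x) ∧ |f0 θ x| ≤ AB θ 0 (tk θ x) ∧
    |f1 θ x| ≤ AA θ 1 (tk θ x) * tk θ x / x ∧ |f1 θ x| ≤ AB θ 1 (tk θ x) * tk θ x / x ∧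
    |f2 θ x| ≤ (AA θ 2 (tk θ x) + AA θ 1 (tk θ x) / tk θ x) * tk θ x ^ 2 / (2 * x ^ 2) ∧
    |f2 θ x| ≤ (AB θ 2 (tk θ x) + AB θ 1 (tk θ x) / tk θ x) * tk θ x ^ 2 / (2 * x ^ 2))
    (hb : ∀ θ : ℝ, 0 < θ → θ < 1 / 2 → ∀ x, 0 ≤ x → |f1 θ x| ≤ 1) : Dec := by
  intro θ h4 h1
  have h0 : 0 < θ := by linarith
  have hq : 2 < 1 / θ := by rw [lt_div_iff₀ h0]; linarith
  have hN := Nn_pos h0 h1
  have ha := Real.Gamma_pos_of_pos (show 0 < 1 - θ by linarith)
  have hbb := Real.Gamma_pos_of_pos (show 0 < 1 + θ by linarith)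
  have hsin : 0 < Real.sin (Real.pi * θ / 2) :=
    Real.sin_pos_of_pos_of_lt_pi (by positivity) (by nlinarith [Real.pi_pos])
  obtain ⟨κ, hκ⟩ : ∃ κ, κ = Real.Gamma (1 - θ) / Real.Gamma (1 + θ) := ⟨_, rfl⟩
  have hκ0 : 0 < κ := by rw [hκ]; positivity
  obtain ⟨S, hS⟩ : ∃ S, S = Real.sin (Real.pi * θ / 2) := ⟨_, rfl⟩
  have hS0 : 0 < S := by rw [hS]; exact hsin
  have htk : ∀ x, 0 < x → tk θ x = √κ * x ^ (1 / 2 : ℝ) := by
    intro x hx
    unfold tk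
    rw [← Real.sqrt_eq_rpow, ← Real.sqrt_mul hκ0.le, hκ]
    congr 1
    ring
  -- powers
  have hpow : ∀ (r x : ℝ), 0 < x → (tk θ x * S) ^ (-r) = (√κ * S) ^ (-r) * x ^ (-r / 2) := by
    intro r x hx
    rw [htk x hx, show √κ * x ^ (1 / 2 : ℝ) * S = (√κ * S) * x ^ (1 / 2 : ℝ) by ring,
      Real.mul_rpow (by positivity) (by positivity), ← Real.rpow_mul hx.le]
    congr 2
    ring
  set C0 : ℝ := Real.Gamma (1 / θ - 1) * (√κ * S) ^ (-(1 / θ - 1)) / Nn θ with hC0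
  set C1 : ℝ := Real.Gamma (1 / θ) * (√κ * S) ^ (-(1 / θ)) / Nn θ * √κ with hC1
  have hG0 := Real.Gamma_pos_of_pos (show 0 < 1 / θ - 1 by linarith)
  have hG1 := Real.Gamma_pos_of_pos (show 0 < 1 / θ by linarith)
  have hC00 : 0 ≤ C0 := by positivity
  have hC10 : 0 ≤ C1 := by positivity
  refine ⟨C0 + C1 + 1, fun x hx => ?_⟩
  have hxp : 0 < x ^ (-(1 / θ - 1) / 2) := Real.rpow_pos_of_pos hx _
  obtain ⟨-, t0, -, t1, -, -⟩ := hT θ h4 h1 x hx
  constructor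
  · refine t0.trans ?_
    have e : AB θ 0 (tk θ x) = C0 * x ^ (-(1 / θ - 1) / 2) := by
      unfold AB
      rw [← hS]
      simp only [Nat.cast_zero, add_zero]
      rw [hpow _ x hx, hC0]
      ring
    rw [e]
    exact mul_le_mul_of_nonneg_right (by linarith) hxp.le
  · by_cases hx1 : x ≤ 1
    · refine (hb θ h0 h1 x hx.le).trans ?_
      have h5 : 1 ≤ x ^ (-(1 / θ - 1) / 2) :=
        Real.one_le_rpow_of_pos_of_le_one_of_nonpos hx hx1 (by linarith)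
      nlinarith
    · push Not at hx1
      refine t1.trans ?_
      have e : AB θ 1 (tk θ x) * tk θ x / x = C1 * x ^ (-(1 / θ + 1) / 2) := by
        unfold AB
        rw [← hS]
        have e1 : 1 / θ - 1 + ((1 : ℕ) : ℝ) = 1 / θ := by push_cast; ring
        rw [e1, hpow _ x hx, htk x hx, hC1]
        have e2 : x ^ (-(1 / θ + 1) / 2) = x ^ (-(1 / θ) / 2) * x ^ (1 / 2 : ℝ) / x := by
          rw [← Real.rpow_add hx, ← Real.rpow_sub_one hx.ne']
          congr 1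
          ring
        rw [e2]
        ring
      rw [e]
      have h5 : x ^ (-(1 / θ + 1) / 2) ≤ x ^ (-(1 / θ - 1) / 2) :=
        Real.rpow_le_rpow_of_exponent_le hx1.le (by linarith)
      calc C1 * x ^ (-(1 / θ + 1) / 2) ≤ C1 * x ^ (-(1 / θ - 1) / 2) := by gcongr
        _ ≤ _ := mul_le_mul_of_nonneg_right (by linarith) hxp.le

end Pool.Agent.Helper40.PT
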