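import Pool.Agent.Helper53.PT.GoalsD
import Pool.Agent.Helper16.PT.ECMP

/-!
# The three-coordinate energy test (packet PT-E3)
-/

namespace Pool.Agent.Helper40.PT

open Pool.Agent.Helper53.PT Finset

theorem frc_eq {α : Type} (n : ℕ) (f : ℕ → α) : N.frc n f = f n := by
  cases n <;> rfl

theorem mn_eq (a b : ℕ) : N.mn a b = min a b := by
  unfold N.mn
  by_cases h : a ≤ b
  · rw [show Nat.ble a b = true from Nat.ble_eq.mpr h, min_eq_left h]; rfl
  · rw [show Nat.ble a b = false from by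
      rw [← Bool.not_eq_true]; exact fun h' => h (Nat.ble_eq.mp h'), min_eq_right (by omega)]; rfl

theorem mx_eq (a b : ℕ) : N.mx a b = max a b := by
  unfold N.mx
  by_cases h : a ≤ b
  · rw [show Nat.ble a b = true from Nat.ble_eq.mpr h, max_eq_right h]; rfl
  · rw [show Nat.ble a b = false from by
      rw [← Bool.not_eq_true]; exact fun h' => h (Nat.ble_eq.mp h'), max_eq_left (by omega)]; rfl

theorem aR_mono {x y : ℕ} (h : x ≤ y) : aR x ≤ aR y := by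
  unfold aR
  have : (x : ℝ) ≤ y := by exact_mod_cast h
  gcongr

theorem aR_le_iff {x y : ℕ} : aR x ≤ aR y ↔ x ≤ y := by
  unfold aR
  rw [div_le_div_iff_of_pos_right (by norm_num)]
  exact Nat.cast_le

theorem aR_nonneg (x : ℕ) : 0 ≤ aR x := by unfold aR; positivity

theorem vR_mono {x y : ℕ} (h : x ≤ y) : vR x ≤ vR y := by
  unfold vR
  have : (x : ℝ) ≤ y := by exact_mod_cast h
  gcongr

theorem vR_nonneg (x : ℕ) : 0 ≤ vR x := by unfold vR; positivity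

theorem vR_add (x y : ℕ) : vR (x + y) = vR x + vR y := by
  unfold vR; push_cast; ring

theorem aR_add (x y : ℕ) : aR (x + y) = aR x + aR y := by
  unfold aR; push_cast; ring

theorem aR_oneA : aR N.oneA = 1 := by
  unfold aR N.oneA; norm_num

theorem aR_sub_le (x : ℕ) {r : ℝ} (hr : 0 ≤ r) (h : 1 - aR x ≤ r) : aR (N.oneA - x) ≤ r := by
  by_cases hx : x ≤ N.oneA
  · have : aR (N.oneA - x) + aR x = 1 := by
      rw [← aR_add, Nat.sub_add_cancel hx, aR_oneA]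
    linarith
  · rw [Nat.sub_eq_zero_of_le (by omega)]
    unfold aR; simpa using hr

theorem le_aR_sub (x : ℕ) {r : ℝ} (h : r ≤ 1 - aR x) : r ≤ aR (N.oneA - x) := by
  by_cases hx : x ≤ N.oneA
  · have : aR (N.oneA - x) + aR x = 1 := by
      rw [← aR_add, Nat.sub_add_cancel hx, aR_oneA]
    linarith
  · have h1 : aR N.oneA ≤ aR x := aR_mono (by omega)
    rw [aR_oneA] at h1
    have := aR_nonneg (N.oneA - x)
    linarith

/-- The third index. -/
theorem third (i j : Fin 3) (h : i ≠ j) : ∃ k, ∀ f : Fin 3 → ℝ,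
    (∏ l, f l = f i * f j * f k) ∧ (∑ l, f l = f i + f j + f k) := by
  have hk : ∀ i j : Fin 3, i ≠ j → ∃ k : Fin 3, i ≠ k ∧ j ≠ k ∧
      (Finset.univ : Finset (Fin 3)) = {i, j, k} := by decide
  obtain ⟨k, hik, hjk, hu⟩ := hk i j h
  refine ⟨k, fun f => ⟨?_, ?_⟩⟩
  · rw [hu, Finset.prod_insert (by simp [h, hik]), Finset.prod_pair hjk]; ring
  · rw [hu, Finset.sum_insert (by simp [h, hik]), Finset.sum_pair hjk]; ring

/-- The corner. -/
theorem corner_ex {α : Type} (a1 b2 : ℕ) (a b c : ℝ) (hb : 0 ≤ b) (hbc : b ≤ c) (hca : c ≤ a)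
    (hs : a + b + c = 1) (ha1 : aR a1 ≤ a) (hb2 : b ≤ aR b2) (f : ℕ → ℕ → ℕ → α) :
    ∃ A B C : ℕ, N.corner a1 b2 f = f A B C ∧
      ∃ A' B' C' : ℝ, aR A ≤ A' ∧ aR B ≤ B' ∧ aR C ≤ C' ∧ 0 ≤ B' ∧ B' ≤ C' ∧ C' ≤ A' ∧ A' ≤ a ∧
        b ≤ B' ∧ A' + B' + C' = 1 := by
  have h1 : aR a1 ≤ 1 := by linarith
  have ha1' : a1 ≤ N.oneA := by rw [← aR_le_iff, aR_oneA]; exact h1
  have hthird : ∃ A' B' C' : ℝ, aR 22369621 ≤ A' ∧ aR 22369621 ≤ B' ∧ aR 22369621 ≤ C' ∧ 0 ≤ B' ∧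
      B' ≤ C' ∧ C' ≤ A' ∧ A' ≤ a ∧ b ≤ B' ∧ A' + B' + C' = 1 := by
    have h3 : aR 22369621 ≤ 1 / 3 := by unfold aR; norm_num
    exact ⟨1 / 3, 1 / 3, 1 / 3, h3, h3, h3, by norm_num, le_rfl, le_rfl, by linarith, by linarith,
      by norm_num⟩
  unfold N.corner
  rw [frc_eq]
  have hadd : Nat.add a1 b2 = a1 + b2 := rfl
  have hsub : Nat.sub N.oneA (a1 + b2) = N.oneA - (a1 + b2) := rfl
  rw [hadd, hsub]
  by_cases hc : b2 ≤ N.oneA - (a1 + b2)
  · rw [show Nat.ble b2 (N.oneA - (a1 + b2)) = true from Nat.ble_eq.mpr hc]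
    by_cases hc1 : N.oneA - (a1 + b2) ≤ a1
    · rw [show Nat.ble (N.oneA - (a1 + b2)) a1 = true from Nat.ble_eq.mpr hc1]
      refine ⟨a1, b2, N.oneA - (a1 + b2), rfl, aR a1, aR b2, aR (N.oneA - (a1 + b2)), le_rfl, le_rfl,
        le_rfl, aR_nonneg _, aR_mono hc, aR_mono hc1, ha1, hb2, ?_⟩
      have h2 : a1 + b2 ≤ N.oneA := by
        by_contra hcon
        have : N.oneA - (a1 + b2) = 0 := by omega
        omega
      rw [← aR_add, ← aR_add, Nat.add_sub_cancel' h2, aR_oneA]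
    · rw [show Nat.ble (N.oneA - (a1 + b2)) a1 = false from by
        rw [← Bool.not_eq_true]; exact fun h' => hc1 (Nat.ble_eq.mp h')]
      by_cases hc2 : 3 * b2 ≤ N.oneA
      · rw [show Nat.ble (Nat.mul 3 b2) N.oneA = true from Nat.ble_eq.mpr hc2]
        have hh : aR (Nat.shiftRight (Nat.sub N.oneA b2) 1) ≤ (1 - aR b2) / 2 := by
          have e1 : Nat.shiftRight (Nat.sub N.oneA b2) 1 = (N.oneA - b2) / 2 := by
            show (N.oneA - b2) >>> 1 = _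
            rw [Nat.shiftRight_eq_div_pow]
          rw [e1]
          have e2 : 2 * ((N.oneA - b2) / 2) + b2 ≤ N.oneA := by omega
          have e3 : aR (2 * ((N.oneA - b2) / 2) + b2) ≤ aR N.oneA := aR_mono e2
          rw [two_mul, aR_add, aR_add, aR_oneA] at e3
          linarith
        have h3 : aR (b2 + b2 + b2) ≤ aR N.oneA := aR_mono (by omega)
        rw [aR_add, aR_add, aR_oneA] at h3
        refine ⟨Nat.shiftRight (Nat.sub N.oneA b2) 1, b2, Nat.shiftRight (Nat.sub N.oneA b2) 1, ?_,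
          (1 - aR b2) / 2, aR b2, (1 - aR b2) / 2, hh, le_rfl, hh,
          aR_nonneg _, by linarith, le_rfl, by linarith, hb2, by ring⟩
        simp only [cond_true, cond_false, frc_eq]
      · rw [show Nat.ble (Nat.mul 3 b2) N.oneA = false from by
          rw [← Bool.not_eq_true]; exact fun h' => hc2 (Nat.ble_eq.mp h')]
        exact ⟨_, _, _, rfl, hthird⟩
  · rw [show Nat.ble b2 (N.oneA - (a1 + b2)) = false from by
      rw [← Bool.not_eq_true]; exact fun h' => hc (Nat.ble_eq.mp h')]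
    by_cases hc2 : N.oneA - a1 ≤ 2 * a1
    · rw [show Nat.ble (Nat.sub N.oneA a1) (Nat.mul 2 a1) = true from Nat.ble_eq.mpr hc2]
      have hh : aR (Nat.shiftRight (Nat.sub N.oneA a1) 1) ≤ (1 - aR a1) / 2 := by
        have e1 : Nat.shiftRight (Nat.sub N.oneA a1) 1 = (N.oneA - a1) / 2 := by
          show (N.oneA - a1) >>> 1 = _
          rw [Nat.shiftRight_eq_div_pow]
        rw [e1]
        have e2 : 2 * ((N.oneA - a1) / 2) + a1 ≤ N.oneA := by omega
        have e3 : aR (2 * ((N.oneA - a1) / 2) + a1) ≤ aR N.oneA := aR_mono e2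
        rw [two_mul, aR_add, aR_add, aR_oneA] at e3
        linarith
      have h3 : aR N.oneA ≤ aR (a1 + a1 + a1) := aR_mono (by omega)
      rw [aR_add, aR_add, aR_oneA] at h3
      refine ⟨a1, Nat.shiftRight (Nat.sub N.oneA a1) 1, Nat.shiftRight (Nat.sub N.oneA a1) 1, ?_,
        aR a1, (1 - aR a1) / 2, (1 - aR a1) / 2, le_rfl, hh, hh, by linarith, le_rfl, by linarith,
        ha1, by linarith, by ring⟩
      simp only [cond_true, cond_false, frc_eq]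
    · rw [show Nat.ble (Nat.sub N.oneA a1) (Nat.mul 2 a1) = false from by
        rw [← Bool.not_eq_true]; exact fun h' => hc2 (Nat.ble_eq.mp h')]
      exact ⟨_, _, _, rfl, hthird⟩

theorem shr_eq (a k : ℕ) : Nat.shiftRight a k = a / 2 ^ k := by
  show a >>> k = _
  exact Nat.shiftRight_eq_div_pow a k

theorem vR_prod_div (u v w X : ℕ) (hX : 0 < X) :
    vR u * vR v * vR w / X ≤ vR (Nat.succ (Nat.div (Nat.shiftRight (Nat.mul (Nat.mul u v) w) 80) X)) := by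
  rw [shr_eq]
  have e : Nat.div (Nat.mul (Nat.mul u v) w / 2 ^ 80) X = u * v * w / (2 ^ 80 * X) := by
    show u * v * w / 2 ^ 80 / X = _
    rw [Nat.div_div_eq_div_mul]
  rw [e]
  have h1 : u * v * w < 2 ^ 80 * X * (u * v * w / (2 ^ 80 * X) + 1) :=
    Nat.lt_mul_div_succ _ (by positivity)
  have h2 : ((u * v * w : ℕ) : ℝ) ≤ ((2 ^ 80 * X * (u * v * w / (2 ^ 80 * X) + 1) : ℕ) : ℝ) := by
    exact_mod_cast h1.le
  generalize u * v * w / (2 ^ 80 * X) = q at h2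
  have hX' : (0 : ℝ) < X := by exact_mod_cast hX
  push_cast at h2
  unfold vR
  rw [div_le_iff₀ hX']
  push_cast
  have e3 : ((u : ℝ) / 2 ^ 40) * (v / 2 ^ 40) * (w / 2 ^ 40) = (u * v * w) / 2 ^ 80 / 2 ^ 40 := by
    field_simp
  rw [e3, div_mul_eq_mul_div]
  gcongr
  rw [div_le_iff₀ (by positivity)]
  linarith

theorem vR_prod (u v w : ℕ) :
    vR u * vR v * vR w ≤ vR (Nat.succ (Nat.shiftRight (Nat.mul (Nat.mul u v) w) 80)) := by
  have h := vR_prod_div u v w 1 one_pos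
  have e : Nat.div (Nat.shiftRight (Nat.mul (Nat.mul u v) w) 80) 1 =
    Nat.shiftRight (Nat.mul (Nat.mul u v) w) 80 := Nat.div_one _
  rw [e] at h
  simpa using h

theorem vR_646 (x : ℕ) : 0.0646 * vR x ≤ vR (Nat.succ (Nat.div (Nat.mul 646 x) 10000)) := by
  have h1 : 646 * x < 10000 * (646 * x / 10000 + 1) := Nat.lt_mul_div_succ _ (by norm_num)
  have h2 : ((646 * x : ℕ) : ℝ) ≤ ((10000 * (646 * x / 10000 + 1) : ℕ) : ℝ) := by
    exact_mod_cast h1.le
  have e : Nat.succ (Nat.div (Nat.mul 646 x) 10000) = 646 * x / 10000 + 1 := rfl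
  rw [e]
  generalize 646 * x / 10000 = q at h2
  push_cast at h2
  unfold vR
  push_cast
  rw [← mul_div_assoc]
  gcongr
  linarith

theorem aR_mul_nat (x k : ℕ) : aR (x * k) = aR x * k := by
  unfold aR; push_cast; ring

theorem arg_le {x : ℕ} {a : ℝ} (h : aR x ≤ a) (i : ℕ) : aR (Nat.mul x (i * i)) ≤ a * (i : ℝ) ^ 2 := by
  have e : aR (Nat.mul x (i * i)) = aR x * ((i : ℝ) ^ 2) := by
    show aR (x * (i * i)) = _
    rw [aR_mul_nat]; push_cast; ring
  rw [e]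
  gcongr

theorem arg_le' {x : ℕ} {a : ℝ} (h : aR x ≤ a) (i : ℕ) (hi : 16 ≤ i) :
    aR (Nat.mul 256 x) ≤ a * (i : ℝ) ^ 2 := by
  have e : aR (Nat.mul 256 x) = aR x * 256 := by
    show aR (256 * x) = _
    rw [mul_comm, aR_mul_nat]; norm_num
  rw [e]
  have h16 : (16 : ℝ) ≤ i := by exact_mod_cast hi
  have h0 := aR_nonneg x
  have ha : 0 ≤ a := le_trans h0 h
  calc aR x * 256 ≤ a * 256 := by gcongr
    _ ≤ a * (i : ℝ) ^ 2 := by
      apply mul_le_mul_of_nonneg_left _ ha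
      nlinarith

theorem abs_mul3_le {x y z u v w : ℝ} (hx : |x| ≤ u) (hy : |y| ≤ v) (hz : |z| ≤ w) :
    |x * y * z| ≤ u * v * w := by
  rw [abs_mul, abs_mul]
  have h1 : 0 ≤ u := (abs_nonneg x).trans hx
  have h2 : 0 ≤ v := (abs_nonneg y).trans hy
  have h3 : 0 ≤ w := (abs_nonneg z).trans hz
  exact mul_le_mul (mul_le_mul hx hy (abs_nonneg _) h1) hz (abs_nonneg _) (mul_nonneg h1 h2)

theorem tail3_bound (D : N.Tab) (θ z : ℝ) (h : TF D θ z) (a b c : ℝ) (a1 b1 cl : ℕ)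
    (ha : aR a1 ≤ a) (hb : aR b1 ≤ b) (hc : aR cl ≤ c) : ∃ p : ℕ → ℝ,
    (∀ i : ℕ, 9 ≤ i → i ≤ 15 →
      |f0 θ (a * (i : ℝ) ^ 2) * f0 θ (b * (i : ℝ) ^ 2) * f0 θ (c * (i : ℝ) ^ 2)| ≤ p i) ∧
    (∀ i : ℕ, 16 ≤ i →
      |f0 θ (a * (i : ℝ) ^ 2) * f0 θ (b * (i : ℝ) ^ 2) * f0 θ (c * (i : ℝ) ^ 2)| ≤ p 16) ∧
    ∑ i ∈ Finset.Icc 9 15, p i / (i : ℝ) ^ 2 + 0.0646 * p 16 ≤ vR (N.tail3 D a1 b1 cl) := by
  refine ⟨fun i => if i ≤ 15 then vR (N.u64 D (Nat.mul a1 (i * i))) * vR (N.u64 D (Nat.mul b1 (i * i))) *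
      vR (N.u64 D (Nat.mul cl (i * i)))
    else vR (N.uu D (Nat.mul 256 a1)) * vR (N.uu D (Nat.mul 256 b1)) * vR (N.uu D (Nat.mul 256 cl)),
    ?_, ?_, ?_⟩
  · intro i h9 h15
    simp only [h15, if_true]
    exact abs_mul3_le (h.uu _ _ (arg_le ha i)).2 (h.uu _ _ (arg_le hb i)).2 (h.uu _ _ (arg_le hc i)).2
  · intro i h16
    simp only [show ¬ (16 ≤ 15) by norm_num, if_false]
    exact abs_mul3_le (h.uu _ _ (arg_le' ha i h16)).1 (h.uu _ _ (arg_le' hb i h16)).1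
      (h.uu _ _ (arg_le' hc i h16)).1
  · set q : ℕ → ℝ := fun i => vR (N.u64 D (Nat.mul a1 (i * i))) * vR (N.u64 D (Nat.mul b1 (i * i))) *
      vR (N.u64 D (Nat.mul cl (i * i))) with hq
    set Q : ℝ := vR (N.uu D (Nat.mul 256 a1)) * vR (N.uu D (Nat.mul 256 b1)) *
      vR (N.uu D (Nat.mul 256 cl)) with hQ
    have hrec : ∀ m : ℕ, 0.0646 * Q + ∑ i ∈ Finset.range m, q (9 + i) / ((9 + i : ℕ) : ℝ) ^ 2 ≤
        vR (Nat.rec (Nat.succ (Nat.div (Nat.mul 646 (Nat.succ (Nat.shiftRight (Nat.mul (Nat.mul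
          (N.uu D (Nat.mul 256 a1)) (N.uu D (Nat.mul 256 b1))) (N.uu D (Nat.mul 256 cl))) 80))) 10000))
        (fun i ih => N.frc (Nat.mul (Nat.add 9 i) (Nat.add 9 i)) (fun X =>
          Nat.add ih (Nat.succ (Nat.div (Nat.shiftRight (Nat.mul (Nat.mul (N.u64 D (Nat.mul a1 X))
            (N.u64 D (Nat.mul b1 X))) (N.u64 D (Nat.mul cl X))) 80) X)))) m) := by
      intro m
      induction m with
      | zero =>
        rw [Finset.range_zero, Finset.sum_empty, add_zero]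
        refine le_trans ?_ (vR_646 _)
        have := vR_prod (N.uu D (Nat.mul 256 a1)) (N.uu D (Nat.mul 256 b1)) (N.uu D (Nat.mul 256 cl))
        rw [hQ]
        linarith
      | succ m ih =>
        rw [Finset.sum_range_succ, ← add_assoc]
        simp only [frc_eq]
        simp only [frc_eq] at ih
        show _ ≤ vR (_ + _)
        rw [vR_add]
        refine add_le_add ih ?_
        have := vR_prod_div (N.u64 D (Nat.mul a1 ((9 + m) * (9 + m)))) (N.u64 D (Nat.mul b1 ((9 + m) * (9 + m))))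
          (N.u64 D (Nat.mul cl ((9 + m) * (9 + m)))) ((9 + m) * (9 + m)) (by positivity)
        refine le_trans (le_of_eq ?_) this
        rw [hq]
        simp only
        congr 1
        push_cast; ring
    have h7 := hrec 7
    refine le_trans (le_of_eq ?_) h7
    have e1 : ∑ i ∈ Finset.Icc 9 15, (if i ≤ 15 then q i else Q) / (i : ℝ) ^ 2 =
        ∑ i ∈ Finset.range 7, q (9 + i) / ((9 + i : ℕ) : ℝ) ^ 2 := by
      rw [show Finset.Icc 9 15 = Finset.image (fun i => 9 + i) (Finset.range 7) by decide]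
      rw [Finset.sum_image (by intro x _ y _ hxy; simpa using hxy)]
      refine Finset.sum_congr rfl fun i hi => ?_
      have : i < 7 := Finset.mem_range.mp hi
      rw [if_pos (by omega)]
    have e2 : (if (16 : ℕ) ≤ 15 then q 16 else Q) = Q := if_neg (by norm_num)
    rw [e1, add_comm]
    exact congrArg (fun w => 0.0646 * w + _) e2

/-- The first eight nodes. -/
theorem head_bound (h3N : GE3N) (D : N.Tab) (θ z : ℝ) (h : TF D θ z) (a b c : ℝ)
    (a1 a2 b1 b2 cl ch A B C : ℕ) (hb : 0 ≤ b) (hbc : b ≤ c) (hca : c ≤ a) (hs : a + b + c = 1)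
    (ha1 : aR a1 ≤ a) (ha2 : a ≤ aR a2) (hb1 : aR b1 ≤ b) (hb2 : b ≤ aR b2) (hcl : aR cl ≤ c)
    (hch : c ≤ aR ch) (hcha : ch ≤ a2) (ha26 : a2 ≤ 2 ^ 26)
    (hex : ∃ A' B' C' : ℝ, aR A ≤ A' ∧ aR B ≤ B' ∧ aR C ≤ C' ∧ 0 ≤ B' ∧ B' ≤ C' ∧ C' ≤ A' ∧ A' ≤ a ∧
        b ≤ B' ∧ A' + B' + C' = 1) : ∀ m : ℕ, m ≤ 8 →
    1 + ∑ i ∈ Finset.range m, f0 θ (a * ((i + 1 : ℕ) : ℝ) ^ 2) * f0 θ (b * ((i + 1 : ℕ) : ℝ) ^ 2) *
        f0 θ (c * ((i + 1 : ℕ) : ℝ) ^ 2) / ((i + 1 : ℕ) : ℝ) ^ 2 ≤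
      vR (Nat.rec N.one (fun i ih => N.frc (Nat.mul (Nat.succ i) (Nat.succ i)) (fun X =>
        N.e3Node D a1 a2 b1 b2 cl ch A B C X ih)) m) := by
  intro m
  induction m with
  | zero =>
    intro _
    simp only [Finset.range_zero, Finset.sum_empty, add_zero]
    unfold vR N.one
    norm_num
  | succ m ih =>
    intro hm
    have ih' := ih (by omega)
    rw [Finset.sum_range_succ, ← add_assoc]
    simp only [frc_eq]
    simp only [frc_eq] at ih'
    have hX1 : 1 ≤ (m + 1) * (m + 1) := Nat.mul_pos (Nat.succ_pos _) (Nat.succ_pos _)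
    have hX2 : (m + 1) * (m + 1) ≤ 64 := by nlinarith
    have := h3N D θ z h a b c a1 a2 b1 b2 cl ch A B C ((m + 1) * (m + 1))
      (Nat.rec N.one (fun i ih => N.e3Node D a1 a2 b1 b2 cl ch A B C (Nat.mul (Nat.succ i) (Nat.succ i)) ih) m)
      hb hbc hca hs ha1 ha2 hb1 hb2 hcl hch hcha ha26 hX1 hX2 hex
    refine le_trans (add_le_add ih' (le_of_eq ?_)) this
    push_cast
    rw [← sq]

theorem gE3 (hEXP : GEXP) : GE3 := by
  intro h3N hETL D θ z hTF t i j a1 a2 b1 b2 hij hSx hord ha1 ha2 hb1 hb2 ha26 hb26 hOK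
  obtain ⟨k, hk⟩ := third i j hij
  have hsum : t i + t j + t k = 1 := by rw [← (hk t).2]; exact hSx.2
  have hj0 : 0 ≤ t j := hSx.1 j
  have hbc : t j ≤ t k := (hord k).2
  have hca : t k ≤ t i := (hord k).1
  have hPP : ∀ ξ : ℝ, PP θ t ξ = f0 θ (t i * ξ ^ 2) * f0 θ (t j * ξ ^ 2) * f0 θ (t k * ξ ^ 2) := by
    intro ξ
    exact (hk fun l => f0 θ (t l * ξ ^ 2)).1
  -- the interval of the third coordinate
  set cl := max b1 (N.oneA - (a2 + b2)) with hcl
  set ch := min a2 (N.oneA - (a1 + b1)) with hch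
  have hclk : aR cl ≤ t k := by
    rw [hcl]
    rcases le_total b1 (N.oneA - (a2 + b2)) with h | h
    · rw [max_eq_right h]
      refine aR_sub_le _ (by linarith) ?_
      rw [aR_add]; linarith
    · rw [max_eq_left h]; linarith
  have hchk : t k ≤ aR ch := by
    rw [hch]
    rcases le_total a2 (N.oneA - (a1 + b1)) with h | h
    · rw [min_eq_left h]; linarith
    · rw [min_eq_right h]
      refine le_aR_sub _ ?_
      rw [aR_add]; linarith
  have hclch : cl ≤ ch := by rw [← aR_le_iff]; linarith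
  obtain ⟨A, B, C, hcor, hex⟩ := corner_ex a1 b2 (t i) (t j) (t k) hj0 hbc hca hsum ha1 hb2
    (fun A B C => Nat.ble (Nat.add (N.mn (N.eTail D a2) (N.tail3 D a1 b1 cl)) (Nat.add 110000
      (Nat.rec N.one (fun i ih => N.frc (Nat.mul (Nat.succ i) (Nat.succ i)) (fun X =>
        N.e3Node D a1 a2 b1 b2 cl ch A B C X ih)) 8))) (N.tt D 3))
  have hOK' : Nat.ble (Nat.add (N.mn (N.eTail D a2) (N.tail3 D a1 b1 cl)) (Nat.add 110000
      (Nat.rec N.one (fun i ih => N.frc (Nat.mul (Nat.succ i) (Nat.succ i)) (fun X =>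
        N.e3Node D a1 a2 b1 b2 cl ch A B C X ih)) 8))) (N.tt D 3) = true := by
    rw [← hcor]
    unfold N.e3OK at hOK
    rw [frc_eq, frc_eq, mx_eq, mn_eq] at hOK
    have e : Nat.ble (Nat.succ ch) cl = false := by
      rw [← Bool.not_eq_true]
      intro h'
      have := Nat.ble_eq.mp h'
      omega
    change cond (Nat.ble (Nat.succ ch) cl) true _ = true at hOK
    rw [e] at hOK
    exact hOK
  have hle := Nat.ble_eq.mp hOK'
  have hhead := head_bound h3N D θ z hTF (t i) (t j) (t k) a1 a2 b1 b2 cl ch A B C hj0 hbc hca hsum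
    ha1 ha2 hb1 hb2 hclk hchk (min_le_left _ _) ha26 hex 8 le_rfl
  set S8 : ℕ := (Nat.rec N.one (fun i ih => N.frc (Nat.mul (Nat.succ i) (Nat.succ i)) (fun X =>
        N.e3Node D a1 a2 b1 b2 cl ch A B C X ih)) 8 : ℕ) with hS8
  -- the tail
  have htail : ∃ p : ℕ → ℝ, (∀ i : ℕ, 9 ≤ i → i ≤ 15 → |PP θ t (i : ℝ)| ≤ p i) ∧
      (∀ i : ℕ, 16 ≤ i → |PP θ t (i : ℝ)| ≤ p 16) ∧
      ∑ i ∈ Finset.Icc 9 15, p i / (i : ℝ) ^ 2 + 0.0646 * p 16 ≤
        vR (N.mn (N.eTail D a2) (N.tail3 D a1 b1 cl)) := by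
    rw [mn_eq]
    rcases le_total (N.eTail D a2) (N.tail3 D a1 b1 cl) with h | h
    · rw [min_eq_left h]
      exact hETL hEXP D θ z hTF 3 t a2 hSx fun l => le_trans (hord l).1 ha2
    · rw [min_eq_right h]
      obtain ⟨p, h1, h2, h3⟩ := tail3_bound D θ z hTF (t i) (t j) (t k) a1 b1 cl ha1 hb1 hclk
      exact ⟨p, fun l hl hl' => by rw [hPP]; exact h1 l hl hl', fun l hl => by rw [hPP]; exact h2 l hl, h3⟩
  obtain ⟨p, hp1, hp2, hp3⟩ := htail
  -- comparison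
  have hcmp : ∀ N' : ℕ, 2 ≤ N' → N' ≤ 3 →
      (N.mn (N.eTail D a2) (N.tail3 D a1 b1 cl)) + (110000 + S8) ≤ N.tn D N' → ¬ IsMinT θ t := by
    intro N' h2 h3 hN
    have hT := hTF.tn N' h2 (by omega)
    refine (Pool.Agent.Helper16.PT.gECMP θ (by linarith [hTF.th0]) hTF.th1).1 3 N' t (by omega) h3 hSx
      (vR (N.tn D N') - 1) (fun l => if l ≤ 8 then PP θ t (l : ℝ) else p l) hT ?_ ?_ ?_ ?_
    · intro l _ hl
      simp only [hl, if_true]
      exact le_rfl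
    · intro l h9 h15
      simp only [show ¬ l ≤ 8 by omega, if_false]
      exact hp1 l h9 h15
    · intro l h16
      simp only [show ¬ (16 ≤ 8) by norm_num, if_false]
      exact hp2 l h16
    · have e1 : ∑ l ∈ Finset.Icc (1 : ℕ) 15, (if l ≤ 8 then PP θ t (l : ℝ) else p l) / (l : ℝ) ^ 2 =
          ∑ l ∈ Finset.range 8, PP θ t ((l + 1 : ℕ) : ℝ) / ((l + 1 : ℕ) : ℝ) ^ 2 +
          ∑ l ∈ Finset.Icc 9 15, p l / (l : ℝ) ^ 2 := by
        rw [show Finset.Icc 1 15 = Finset.image (fun l => l + 1) (Finset.range 8) ∪ Finset.Icc 9 15 by decide]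
        rw [Finset.sum_union (by decide), Finset.sum_image (by intro x _ y _ hxy; simpa using hxy)]
        refine congrArg₂ (· + ·) (Finset.sum_congr rfl fun l hl => ?_) (Finset.sum_congr rfl fun l hl => ?_)
        · have : l < 8 := Finset.mem_range.mp hl
          rw [if_pos (by omega)]
        · have := (Finset.mem_Icc.mp hl).1
          rw [if_neg (by omega)]
      have e2 : ∑ l ∈ Finset.range 8, PP θ t ((l + 1 : ℕ) : ℝ) / ((l + 1 : ℕ) : ℝ) ^ 2 =
          ∑ l ∈ Finset.range 8, f0 θ (t i * ((l + 1 : ℕ) : ℝ) ^ 2) * f0 θ (t j * ((l + 1 : ℕ) : ℝ) ^ 2) *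
        f0 θ (t k * ((l + 1 : ℕ) : ℝ) ^ 2) / ((l + 1 : ℕ) : ℝ) ^ 2 :=
        Finset.sum_congr rfl fun l _ => by rw [hPP]
      have e3 : (if (16 : ℕ) ≤ 8 then PP θ t ((16 : ℕ) : ℝ) else p 16) = p 16 := if_neg (by norm_num)
      have hvN := vR_mono hN
      rw [vR_add, vR_add] at hvN
      have h11 : (1e-7 : ℝ) < vR 110000 := by unfold vR; norm_num
      show ∑ l ∈ Finset.Icc (1 : ℕ) 15, (if l ≤ 8 then PP θ t (l : ℝ) else p l) / (l : ℝ) ^ 2 +
        0.0646 * (if (16 : ℕ) ≤ 8 then PP θ t ((16 : ℕ) : ℝ) else p 16) + 1e-7 < _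
      rw [e1, e2, e3]
      linarith
  have htt : N.tt D 3 = max (N.tn D 2) (N.tn D 3) := by
    unfold N.tt
    rw [mx_eq, mn_eq]
    rfl
  rw [htt] at hle
  rcases le_total (N.tn D 2) (N.tn D 3) with h | h
  · rw [max_eq_right h] at hle
    exact hcmp 3 (by norm_num) le_rfl hle
  · rw [max_eq_left h] at hle
    exact hcmp 2 le_rfl (by norm_num) hle

end Pool.Agent.Helper40.PT
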